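import Pool.Agent.MWLE.Fin
import Pool.Agent.Helper90_MWG.Gam

/-!
# Necessity in the gamma world for period one, complete (MP_23468a_al)
-/

namespace Pool.Agent.Helper71_MWG

open Pool.Agent.Helper14_MV Pool.Agent.Helper2_MV Pool.Agent.MWZ

/-- the world outside `x^2y ≈ x^2yx` -/
theorem necM : MWG.H90.NecM := by
  intro β hm hw h0 hk h3
  have hz : MWGN.Gz β := ⟨hw, h0, h3⟩
  obtain ⟨a, b⟩ := MWLE.Fin.lef β hm hz hk
  exact ⟨MWGN.Comp.g3f β hm hz a, a, b⟩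

theorem gN : MWU.Nec (fun n => n = 1) (fun n β => MWU.Gam n (RR β) ∧ ¬ MWU.Bet n (RR β)) SGam :=
  MWG.H90.gN necM

end Pool.Agent.Helper71_MWG

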